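import Pool.Agent.N356.SP.Defs4

set_option autoImplicit false

/-! Definitions for the class inequality in `L^10` and its consequences. -/

namespace Pool.Agent.N332.SK

/-- the fifth root of 52488/7 -/
noncomputable def c5 : ℝ := (52488 / 7 : ℝ) ^ ((1:ℝ) / 5)

/-- the bound for the tenth moment -/
noncomputable def B5 (t : ℝ) : ℝ :=
  (1 + 5 * c5 * t ^ 2 + 268 * t ^ 4 + 700 * t ^ 6) ^ ((1:ℝ) / 10)

/-- the bound for the tenth moment in the parameter `Y` -/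
noncomputable def N5 (Y : ℝ) : ℝ :=
  1 + 5 * (1 + Y / 2) ^ 2 * Y + 1511 / 200 * Y ^ 2 * (1 + Y / 2) ^ 4 +
    1657 / 500 * Y ^ 3 * (1 + Y / 2) ^ 6

/-- its derivative -/
noncomputable def N5' (Y : ℝ) : ℝ :=
  5 * (1 + Y / 2) ^ 2 + 5 * (1 + Y / 2) * Y + 1511 / 100 * Y * (1 + Y / 2) ^ 4 +
    1511 / 100 * Y ^ 2 * (1 + Y / 2) ^ 3 + 4971 / 500 * Y ^ 2 * (1 + Y / 2) ^ 6 +
    4971 / 500 * Y ^ 3 * (1 + Y / 2) ^ 5

end Pool.Agent.N332.SK
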