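import Pool.Agent.N332.SK.Defs5
import Pool.Agent.N80.LS.Comb
import Pool.Agent.N400.LS.KS5
import Pool.Agent.N701.LS.KT1
import Pool.Agent.N945.LS.KT2
import Pool.Agent.N954.LS.Real5
import Pool.Agent.N954.LS.Star5Main
import Pool.Agent.N966.LS.TwoBlock5
import Pool.Agent.N615.LS.Star3
import Pool.Agent.N615.LS.Small
import Pool.Agent.N558.LS.LS5
import Pool.Agent.N608.LS.L12b
import Pool.Agent.N608.LS.L14
import Pool.Agent.N765.LS.Func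
import Pool.Agent.N835.LS.Main
import Pool.Agent.N521.LS.SplitOK5
import Pool.Agent.N521.LS.Main5
import Pool.Agent.N769.LS.D5
import Pool.Agent.N73.LS.Ebound5
import Pool.Agent.N279.LS.Curve5
import Pool.Agent.N966.LS.RealOK5

set_option autoImplicit false

/-! The case `k = 5` without hypotheses. -/

namespace Pool.Agent.N332.SK

open Finset Pool.Agent.H384R3.SPk Pool.Agent.N356.SP

theorem L_f10 {Γ R : Type*} [AddCommGroup Γ] [CommRing R] [Algebra ℝ R] {K : Cone Γ R}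
    {L : R →ₗ[ℝ] ℝ} {C : Finset Γ} {θ : Γ → Γ → ℝ} {φ : Γ → R}
    (hL : IsFun K L) (h : GoodC C θ) (hφ : ∀ c, φ c ∈ K.P c) :
    63 / 8 * L (muA C φ ^ 5) + 140 / 9 * L (muA C φ ^ 3 * wA C θ φ) +
      32 / 15 * L (muA C φ * wA C θ φ ^ 2) ≤ L (fA C φ ^ 10) :=
  Pool.Agent.N701.LS.L_f10_of hL h hφ
    (fun _ hL => Pool.Agent.N400.LS.L_f6 (fun h I => Pool.Agent.N80.LS.comb h I) hL h hφ)

theorem star10 {m : ℕ} {C : Finset (ZMod m)} {θ : ZMod m → ZMod m → ℝ} {f : ℤ →₀ ℝ}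
    (h : GoodC C θ) (hf0 : ∀ n, 0 ≤ f n) (hf : ∀ n ∈ f.support, ((n : ℤ) : ZMod m) ∈ C) :
    63 / 8 * (∫ x in (0:ℝ)..1, muf C f x ^ 5) +
      140 / 9 * (∫ x in (0:ℝ)..1, muf C f x ^ 3 * wf C θ f x) +
      32 / 15 * (∫ x in (0:ℝ)..1, muf C f x * wf C θ f x ^ 2) ≤ Mc 5 f :=
  Pool.Agent.N945.LS.star10_of (fun hL h hφ => L_f10 hL h hφ) h hf0 hf

theorem star5 {m : ℕ} (C : Finset (ZMod m)) (θ : ZMod m → ZMod m → ℝ) :
    Pool.Agent.N966.LS.K5.Star5 C θ :=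
  fun h hg0 hf0 hg hf _ _ hG0 hy hG hF =>
    Pool.Agent.N954.LS.star5 (star10 h hf0 hf) h hg0 hf0 hg hf hG0 hy hG hF

theorem two_block5 {m : ℕ} {C : Finset (ZMod m)} {θ : ZMod m → ZMod m → ℝ} {g f : ℤ →₀ ℝ}
    (h : GoodC C θ) (hg0 : ∀ n, 0 ≤ g n) (hf0 : ∀ n, 0 ≤ f n)
    (hg : ∀ n ∈ g.support, ((n : ℤ) : ZMod m) = 0)
    (hf : ∀ n ∈ f.support, ((n : ℤ) : ZMod m) ∈ C) (hG : Mc 5 g ≤ 252) (hF : Mc 5 f ≤ 252)
    {t : ℝ} (ht0 : 0 ≤ t) (ht1 : t ^ 2 ≤ 17 / 250) :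
    Mc 5 (g + t • f) ≤ 252 * (1 + 5 * c5 * t ^ 2 + 268 * t ^ 4 + 700 * t ^ 6) :=
  Pool.Agent.N966.LS.K5.two_block5
    (fun hy0 hy1 h2 h4 h6 h8 h2' h3 h4' h6' h8' h5 h7 h9 =>
      Pool.Agent.N954.LS.PI5 hy0 hy1 h2 h4 h6 h8 h2' h3 h4' h6' h8' h5 h7 h9)
    (star5 C θ)
    (fun hneg hne hg0 hf0 hg hf i => Pool.Agent.N615.LS.A1_eq hneg hne hg0 hf0 hg hf i)
    h hg0 hf0 hg hf hG hF ht0 ht1

theorem splitOK5 : SplitOK 5 B5 (13 / 50) :=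
  Pool.Agent.N521.LS.splitOK5
    (fun h hg0 hf0 hg hf hG hF _ ht0 ht1 => two_block5 h hg0 hf0 hg hf hG hF ht0 ht1)
    (fun hneg h8 h2 => Pool.Agent.N558.LS.good_th hneg h8 h2)
    (fun h8 => Pool.Agent.N615.LS.good_small h8)
    (fun hk _ _ _ hpos h0 h1 _ _ ht hB H => Pool.Agent.N608.LS.S_comb hk hpos h0 h1 ht hB H)

theorem curve5 : Pool.Agent.N966.LS.K5.Curve :=
  fun hY0 hY1 hη0 hη1 hs0 hs1 =>
    Pool.Agent.N279.LS.curve5_of (fun hY0 hY1 hη0 hη1 hs0 hs1 hE =>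
      Pool.Agent.N769.LS.D5 hY0 hY1 hη0 hη1 hs0 hs1 hE)
      (fun hY0 hY1 hη0 hη1 hs0 hs1 => Pool.Agent.N73.LS.Ebound5 hY0 hY1 hη0 hη1 hs0 hs1)
      hY0 hY1 hη0 hη1 hs0 hs1

theorem realOK5 {n : ℕ} (hn : 5 ≤ n) {b : ℝ} (hb : (n : ℝ) ^ b = c5) :
    RealOK n b B5 (13 / 50) :=
  Pool.Agent.N966.LS.K5.realOK5_curve curve5 hn hb

theorem hMain : Pool.Agent.N521.LS.HMain :=
  fun hk hn _ hb _ _ ht₀ hS hR A hA hAp hM =>
    Pool.Agent.N356.SP.LS15.main_gen_of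
      (fun hk _ _ h hpos => Pool.Agent.N765.LS.S_sub hk h hpos)
      (fun hk _ hA hpos => Pool.Agent.N765.LS.one_le_S hk hA hpos)
      hk hn hb ht₀ hS hR A hA hAp hM

theorem hMono : Pool.Agent.N521.LS.HMono := Pool.Agent.N608.LS.exists_mono

theorem hPow : Pool.Agent.N521.LS.HPow :=
  fun hk _ hA hpos => Pool.Agent.N765.LS.S_pow hk hA hpos

theorem hOne : Pool.Agent.N521.LS.HOne :=
  fun hk _ hA hpos => Pool.Agent.N765.LS.one_le_S hk hA hpos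

/-- the case `k = 5` -/
theorem main5 : ∃ K : ℝ, 1 ≤ K ∧ ∀ n : ℕ, 5 ≤ n → ∀ β : ℝ, 52488 / 7 ≤ (n : ℝ) ^ β →
    ∀ A : Finset ℤ, A.Nonempty →
      (A.card : ℝ) ^ (5 + β) ≤ K ^ (5 + β) *
        (((sumset 5 A).card : ℝ) * ((prodset fun _ : Fin n => A).card : ℝ) ^ β) :=
  Pool.Agent.N521.LS.main5 hMain splitOK5 (fun hn _ hb => realOK5 hn hb) hMono hPow hOne

theorem max5 : ∃ K : ℝ, 1 ≤ K ∧ ∀ N : ℕ, 5 ≤ N → ∀ A : Finset ℤ, A.Nonempty →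
    ((A.card : ℝ) / K) ^ ((5 * Real.log N + Real.log (52488 / 7)) /
      (Real.log N + Real.log (52488 / 7))) ≤
      max ((sumset N A).card : ℝ) ((prodset fun _ : Fin N => A).card : ℝ) :=
  Pool.Agent.N521.LS.max5 hMain splitOK5 (fun hn _ hb => realOK5 hn hb) hMono hPow hOne

end Pool.Agent.N332.SK
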